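import Pool.Agent.J6H49.KT.Main

/-!
# Tally complete sets
-/

set_option autoImplicit false

namespace Pool.Agent.J6H11.TCS

open Pool.Agent.NPC Pool.Agent.H628R3.RO Filter Pool.Agent.J6H49.OP Pool.Agent.J6H49.IP
open Pool.Agent.J6H54.RO
open Pool.Agent.H620R2.Gauge (SAlg IsPSPACE)
open Pool.Agent.H620R2.Gauge.CC (Acc cut)
open Pool.Agent.H622R2 (poly_pairBits poly_of_polyTime)
open Pool.Agent.TH678.GC (join)
open Pool.Agent.TH678.RS (bt)
open Pool.Agent.Y626.WX (Cp cod exists_cp)
open Pool.Agent.J6H49.PHC (oracle far)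
open Pool.Agent.J6H49.ES (pin pin_inj length_pin p_pin)
open Pool.Agent.J6H49.KW
open Pool.Agent.J6H49.KT

/-- The language `L` is reducible to `A` by a polynomial-time truth-table reduction relative to the
oracle `B`: the list `Q x` of the queries to `A` and the value of the condition `V` for the list of the
answers are computed in polynomial time relative to `B`. -/
def TTRed (B A : Oracle) (L : Set (List Bool)) : Prop :=
  ∃ (Q : List Bool → List (List Bool)) (V : List Bool → List Bool),
    IsFP B (fun x => bits (Q x)) ∧ IsFP B V ∧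
      ∀ x, x ∈ L ↔ V (pairBits x ((Q x).map A)) = [true]

theorem TTRed.not {B A : Oracle} {L : Set (List Bool)} (h : TTRed B A L) :
    TTRed B (fun u => !A u) L := by
  obtain ⟨Q, V, hQ, hV, hx⟩ := h
  refine ⟨Q, fun z => V (pairBits (unpair z).1 ((unpair z).2.map fun b => !b)), hQ, ?_, fun x => ?_⟩
  · refine IsFP.comp hV (IsFP.of_poly (poly_pairBits (Poly.fst poly_unpair)
      (NPC.Poly.map (F := fun (_ : List Bool) b => !b) (Poly.snd poly_unpair)
        (Poly.not (Poly.snd Poly.id)))))
  · rw [hx x]
    dsimp only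
    rw [unpair_pairBits]
    dsimp only
    rw [List.map_map]
    have h1 : ((fun b => !b) ∘ fun u => !A u) = A := by
      funext u
      simp
    rw [h1]

section

variable {g : ℕ → SAlg × Polynomial ℕ} {S : ℕ → Polynomial ℕ} {Φ : Oracle → Oracle}
  {α : ℕ → ℕ} {C : Oracle} {T : ℕ → Bool} {Z : ℕ → ℕ → ℕ → Bool}

/-- **Truth-table hardness of the tally set** -/
theorem tt_tally (hg : Function.Surjective g) (hc : Cp g S (bt α) Φ) {L : Set (List Bool)}
    (hL : IsPSPACE (OO hc C T Z) L) : TTRed (OO hc C T Z) (tally T) L := by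
  obtain ⟨e, he⟩ := exists_code hg hc hL
  have hu : UPoly (fun x : List Bool => (lvx S e x + 1) ^ 3) := by
    have h := UPoly.eval (u_lvx S e (x := fun x : List Bool => x) Poly.id) ((Polynomial.X + 1) ^ 3)
    simpa using h
  have a1 : Poly (fun p : List Bool × ℕ => p.1) := Poly.fst Poly.id
  have a2 : Poly (fun p : List Bool × ℕ => p.2) := Poly.snd Poly.id
  have h3 : UPoly (fun p : List Bool × ℕ => min p.2 ((lvx S e p.1 + 1) ^ 3)) :=
    UPoly.of_le (Poly.min a2 ((hu.comp a1).toPoly)) (hu.comp a1) fun p => min_le_right _ _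
  have hQ : Poly (fun x : List Bool => (List.range ((lvx S e x + 1) ^ 3)).map
        fun m => List.replicate (min m ((lvx S e x + 1) ^ 3)) true) :=
    NPC.Poly.map (F := fun (x : List Bool) m =>
      List.replicate (min m ((lvx S e x + 1) ^ 3)) true) hu.range (p_replicate h3 true)
  refine ⟨fun x => (List.range ((lvx S e x + 1) ^ 3)).map
        fun m => List.replicate (min m ((lvx S e x + 1) ^ 3)) true,
    fun z => [OO hc C T Z (qs S e true (unpair z).1 (unpair z).2)],
    IsFP.of_poly (poly_of_polyTime (polyTime_bits hQ)), ?_, fun x => ?_⟩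
  · exact IsFP.tt (Q := fun z => [qs S e true (unpair z).1 (unpair z).2]) (H := fun p => p.2)
      (Poly.cons (p_qs S e true (Poly.fst poly_unpair) (Poly.snd poly_unpair)) (NPC.Poly.const []))
      (Poly.snd Poly.id)
  · have h4 : ((List.range ((lvx S e x + 1) ^ 3)).map
        fun m => List.replicate (min m ((lvx S e x + 1) ^ 3)) true).map (tally T) =
      tp T (lvx S e x) := by
      unfold tp
      rw [List.map_map]
      apply List.map_congr_left
      intro m hm
      rw [List.mem_range] at hm
      show tally T (List.replicate (min m _) true) = T m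
      rw [min_eq_left hm.le, tally_at]
    rw [h4]
    show x ∈ L ↔ [OO hc C T Z (qs S e true (unpair (pairBits x _)).1 (unpair (pairBits x _)).2)] =
      [true]
    rw [unpair_pairBits, List.cons.injEq, he]
    simp

/-- the question for a long witness -/
noncomputable def qt (S : ℕ → Polynomial ℕ) (e : ℕ) (x w : List Bool) : List Bool :=
  [false, true, true, false] ++ pos e (lvx S e x + x.length)
    (pairBits w (true :: pin x (0, 0, 0)))

theorem p_qt (S : ℕ → Polynomial ℕ) (e : ℕ) {β : Type} [TEnc β]
    {x w : β → List Bool} (hx : Poly x) (hw : Poly w) : Poly (fun a => qt S e (x a) (w a)) :=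
  Poly.append (NPC.Poly.const _) (p_pos (UPoly.const e) (UPoly.add (u_lvx S e hx) (UPoly.length hx))
    (poly_pairBits hw (Poly.cons (NPC.Poly.const true)
      (p_pin hx (UPoly.const 0) (UPoly.const 0) (UPoly.const 0)))))

theorem exists_qt (hg : Function.Surjective g) (hc : Cp g S (bt α) Φ) : ∃ e : ℕ,
    ∀ (x w : List Bool), OO hc C T Z (qt S e x w) = true ↔ w = tp T (lvx S e x + x.length) := by
  have hL : IsPSPACE (OO hc C T Z) (Set.univ : Set (List Bool)) := by
    refine Pool.Agent.J6H49.ES.isPSPACE_of_isNP ⟨fun _ => [true], 0, IsFP.of_poly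
      (NPC.Poly.const _), fun x => ?_⟩
    simp
  have hp : Poly (fun y : List Bool => (unpair y).1) := Poly.fst poly_unpair
  obtain ⟨M, p, hM⟩ := hL.precomp hp
  obtain ⟨e, he⟩ := hg (M, p)
  refine ⟨e, fun x w => ?_⟩
  unfold qt
  rw [OO_code hc, acc_iff (L := {y : List Bool | (unpair y).1 ∈ (Set.univ : Set (List Bool))})
    hc he (pin x (0, 0, 0)) (hM _)]
  constructor
  · rintro ⟨h2, -, -⟩
    exact h2
  · intro h2
    refine ⟨h2, Nat.le_add_right _ _, ?_⟩
    simp

/-- a polynomial bound for the length of the long witness -/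
theorem exists_wl' (S : ℕ → Polynomial ℕ) (e : ℕ) (T : ℕ → Bool) :
    ∃ p : Polynomial ℕ, ∀ x : List Bool,
      (tp T (lvx S e x + x.length)).length ≤ p.eval x.length := by
  refine ⟨((S e).comp (2 * Polynomial.X + 3) + Polynomial.X + 1) ^ 3, fun x => ?_⟩
  rw [length_tp]
  unfold lvx
  rw [length_pin]
  simp only [Polynomial.eval_pow, Polynomial.eval_add, Polynomial.eval_comp, Polynomial.eval_mul,
    Polynomial.eval_X, Polynomial.eval_ofNat, Polynomial.eval_one]
  apply le_of_eq
  congr 3

theorem getD_tp (T : ℕ → Bool) {i m : ℕ} (h : m < (i + 1) ^ 3) : (tp T i).getD m false = T m := by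
  unfold tp
  rw [List.getD_eq_getElem?_getD, List.getElem?_map, List.getElem?_range h]
  rfl

/-- **The tally set is in `UP ∩ coUP`.** -/
theorem isUP_tally (hg : Function.Surjective g) (hc : Cp g S (bt α) Φ) (c : Bool) :
    IsUP (OO hc C T Z) {x | tally T x = c} := by
  obtain ⟨e, he⟩ := exists_qt (C := C) (T := T) (Z := Z) hg hc
  obtain ⟨p, hp⟩ := exists_wl' S e T
  set V : List Bool → List Bool := fun z => [OO hc C T Z (qt S e (unpair z).1 (unpair z).2) &&
      decide ((decide ((unpair z).1 = List.replicate (unpair z).1.length true) &&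
        (unpair z).2.getD (unpair z).1.length false) = c)] with hV
  have hVx : ∀ x w, V (pairBits x w) = [true] ↔
      w = tp T (lvx S e x + x.length) ∧ tally T x = c := by
    intro x w
    rw [hV]
    dsimp only
    rw [unpair_pairBits, List.cons.injEq]
    dsimp only
    rw [Bool.and_eq_true, he, decide_eq_true_eq]
    have h1 : w = tp T (lvx S e x + x.length) → w.getD x.length false = T x.length := by
      rintro rfl
      apply getD_tp
      calc x.length < lvx S e x + x.length + 1 := by omega
        _ ≤ (lvx S e x + x.length + 1) ^ 3 := Nat.le_self_pow (by norm_num) _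
    constructor
    · rintro ⟨⟨h2, h3⟩, -⟩
      refine ⟨h2, ?_⟩
      rw [h1 h2] at h3
      exact h3
    · rintro ⟨h2, h3⟩
      refine ⟨⟨h2, ?_⟩, rfl⟩
      rw [h1 h2]
      exact h3
  refine ⟨V, p, ?_, fun x => ?_, fun x w w' _ _ h1 h2 => ?_⟩
  · refine IsFP.tt (Q := fun z => [qt S e (unpair z).1 (unpair z).2])
      (H := fun p => [p.2.getD 0 false &&
        decide ((decide ((unpair p.1).1 = List.replicate (unpair p.1).1.length true) &&
          (unpair p.1).2.getD (unpair p.1).1.length false) = c)])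
      (Poly.cons (p_qt S e (Poly.fst poly_unpair) (Poly.snd poly_unpair)) (NPC.Poly.const [])) ?_
    have b1 : Poly (fun p : List Bool × List Bool => (unpair p.1).1) :=
      Poly.fst (poly_unpair.comp (Poly.fst Poly.id))
    have b2 : Poly (fun p : List Bool × List Bool => (unpair p.1).2) :=
      Poly.snd (poly_unpair.comp (Poly.fst Poly.id))
    exact Poly.cons (Poly.and (Poly.getD (Poly.snd Poly.id) (NPC.Poly.const 0)
      (NPC.Poly.const false)) (Poly.decide_eq (Poly.and
        (Poly.decide_eq b1 (p_replicate (UPoly.length b1) true))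
        (Poly.getD b2 (Poly.length b1) (NPC.Poly.const false))) (NPC.Poly.const c)))
        (NPC.Poly.const [])
  · constructor
    · intro hx
      exact ⟨tp T (lvx S e x + x.length), hp x, (hVx _ _).2 ⟨rfl, hx⟩⟩
    · rintro ⟨w, -, hw⟩
      exact ((hVx _ _).1 hw).2
  · rw [((hVx _ _).1 h1).1, ((hVx _ _).1 h2).1]

end

theorem main {α : ℕ → ℕ} (hα : Monotone α) (hα' : Tendsto α atTop atTop) {f : ℕ → ℕ}
    (hf : Monotone f) (hf' : Tendsto f atTop atTop) (hfn : ∀ n, f n ≤ n) (C : Oracle) :
    ∃ (O : Oracle) (T : ℕ → Bool), NearlyCollapsed α O ∧ Contains O C ∧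
      (∀ L, IsPSPACE O L → IsUP O L ∧ IsUP O Lᶜ ∧ TTRed O (tally T) L) ∧
      (∀ c, IsUP O {x | tally T x = c}) ∧
      (∀ n, ((Finset.range (n + 1)).filter fun m => T m = true).card ≤ f n) ∧
      ∀ U : ℕ → Bool, (∀ L, IsUP O L → IsUP O Lᶜ → IsP (join O (tally U)) L) →
        ∃ c, ∃ᶠ n in atTop,
          f n ≤ c * ((Finset.range (n ^ c)).filter fun m => U m = true).card := by
  classical
  obtain ⟨g, hg⟩ := Pool.Agent.H620R2.Gauge.CC.exists_enum
  obtain ⟨S, Φ, hc⟩ := exists_cp g (bt (slow2 α))
  obtain ⟨N, hN⟩ := Pool.Agent.J6H49.KT.exists_good (slow2_mono hα) (slow2_tendsto hα') hf'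
  have hne : Nonempty Alg := ⟨⟨_, Pool.Agent.H620R2.Gauge.CC.const_polyTime [], 0⟩⟩
  obtain ⟨en, hen⟩ := exists_surjective_nat Alg
  choose cc hcc1 hcc2 using fun a : ℕ => exists_exp (((en a).p + qb (en a)).comp
    (Polynomial.X * Polynomial.X + Polynomial.X + Polynomial.C (a + 2)))
  obtain ⟨σ, hσ⟩ := exists_seq (((fun _ => 0), fun _ _ => true) : Dt)
    (fun j σ => (Pool.Agent.J6H49.KT.exists_stage hfn hN en cc j
      (OL hc C (TT f N σ) (ZZ N σ) (N j))).choose) (by
      intro j σ σ' h
      have h1 := OL_congr (C := C) hc (TT_congr hN h) (ZZ_congr hN h)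
      congr 2)
  set T := TT f N σ with hT
  set Z := ZZ N σ with hZ
  set O := OO hc C T Z with hO
  have hst : ∀ j, StT en cc f N j (OL hc C T Z (N j)) (σ j) := by
    intro j
    rw [hσ j]
    exact (Pool.Agent.J6H49.KT.exists_stage hfn hN en cc j (OL hc C (TT f N σ) (ZZ N σ) (N j))).choose_spec
  have hZj : ∀ a b j, Z a b (N j) = true ↔ (σ j).2 a b = true := by
    intro a b j
    rw [hZ]
    unfold ZZ
    rw [decide_eq_true_eq]
    constructor
    · exact fun h => h j rfl
    · intro h j' hj'
      rw [← hN.mono.injective hj']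
      exact h
  refine ⟨O, T, ?_, ⟨[false, true, false], fun x => rfl⟩,
    fun L hL => ⟨(isUP hg hc hL).1, (isUP hg hc hL).2, tt_tally hg hc hL⟩,
    fun c => isUP_tally hg hc c, TT_dens hN hf σ, fun U hU => ?_⟩
  · exact nearly hg hα hc (join (fun _ => false) (join C (DD hc C T Z)))
  · have hX := Pool.Agent.J6H49.ES.isPSPACE_of_isNP (isNP_XX (C := C) (T := T) (Z := Z) hc)
    obtain ⟨V, ⟨M, hM⟩, hV⟩ := hU (XX Z) (isUP hg hc hX).1 (isUP hg hc hX).2
    obtain ⟨a, ha⟩ := hen M
    have hwd : Tendsto (fun j => wd f N j) atTop atTop := by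
      have h1 : Tendsto (fun j => f (N j)) atTop atTop := hf'.comp hN.mono.tendsto_atTop
      rw [tendsto_atTop] at h1 ⊢
      intro b
      filter_upwards [h1 (2 * b)] with j hj
      unfold wd
      omega
    have hNt := hN.mono.tendsto_atTop
    by_contra hcon
    push Not at hcon
    have hcon' := hcon (16 * cc a)
    obtain ⟨j, hj1, hj2, hj3, hj4, hj5⟩ := ((eventually_gt_atTop a).and
      ((eventually_ge_atTop (cc a)).and ((hwd.eventually_ge_atTop (4 * (cc a + 4))).and
        ((hNt.eventually (hcc2 a)).and (hNt.eventually hcon'))))).exists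
    have hok : OKt en cc f N j a := by
      refine ⟨hj1, hj2, hcc1 a, hj3, ?_⟩
      rw [Polynomial.eval_comp] at hj4
      simp only [Polynomial.eval_add, Polynomial.eval_mul, Polynomial.eval_X,
        Polynomial.eval_C] at hj4
      rw [Polynomial.eval_add]
      have e1 : N j * N j + N j + a + 2 = N j * N j + N j + (a + 2) := by omega
      rw [e1]
      exact hj4
    obtain ⟨Q, hQ1, hQ2, hQ3⟩ := (hst j).2 a hok
    have hQO : ∀ q ∈ Q, O q = OL hc C T Z (N j) q := by
      intro q hq
      rw [hO]
      refine OO_eq hc (R := N j ^ j) (fun s hs => hN.far j s hs) (hQ1 q hq) ?_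
      intro i hi _ hprot
      exact hQ2 q hq ⟨_, hprot, enc_tp hfn hN (fun j' k => (hst j').1 k) hi⟩
    have hge := hN.ge j
    have hsmall : ((Finset.range (N j ^ cc a)).filter fun m => U m = true).card * (8 * cc a) ≤
        wd f N j := by
      have h1 : ((Finset.range (N j ^ cc a)).filter fun m => U m = true).card ≤
          ((Finset.range (N j ^ (16 * cc a))).filter fun m => U m = true).card := by
        refine Finset.card_le_card fun m hm => ?_
        rw [Finset.mem_filter, Finset.mem_range] at hm ⊢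
        refine ⟨hm.1.trans_le (Nat.pow_le_pow_right (by omega) (by omega)), hm.2⟩
      have h2 : 16 * cc a * ((Finset.range (N j ^ cc a)).filter fun m => U m = true).card ≤
          16 * cc a * ((Finset.range (N j ^ (16 * cc a))).filter fun m => U m = true).card :=
        Nat.mul_le_mul_left _ h1
      have h3 : wd f N j = f (N j) / 2 := rfl
      have h4 : 16 * cc a * ((Finset.range (N j ^ cc a)).filter fun m => U m = true).card =
          2 * (((Finset.range (N j ^ cc a)).filter fun m => U m = true).card * (8 * cc a)) := by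
        ring
      omega
    obtain ⟨b, hb⟩ := hQ3 O hQO U hsmall
    apply hb
    rw [← hZj, ← mem_XX (a := a) (b := b), ha, hM, Option.some.injEq]
    exact (hV _).symm


/-- sets in `P` -/
theorem isP_join {O U : Oracle} {L : Set (List Bool)} (h : IsP O L) : IsP (join O U) L := by
  obtain ⟨V, hV, hx⟩ := h
  exact ⟨V, Pool.Agent.J6H49.OP.isFP_lift [false] (fun x => rfl) hV, hx⟩

end Pool.Agent.J6H11.TCS
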